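import Pool.Agent.H51.KV.Gap

/-!
# The range of Q1: special systems are bounded by their multiplicities after the ninth

Let `P 1, …, P s` be general points of the complex projective plane, `m₁ ≥ m₂ ≥ ⋯` ANY
multiplicities and `d ≥ m₁ + m₂ + m₃` (the range of Q1). Let `v` be the virtual dimension plus one,
`c = 3 d - m₁ - ⋯ - m₉ (≥ 0)`, and let `T` and `S` be the sums of the numbers `m i + 1` and of their
squares over the multiplicities `m i ≥ 2` after the ninth. Let `g` be a number such that every such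
`m i + 1` is at most `g`, or some such `m j` is smaller than `m i` and at least half of it: for
instance `g = m₁₀ + 1`, or the smallest of the numbers `m i + 1` if these multiplicities never drop
by more than one half.

If the system is special and not empty, its superabundance `h¹ = h⁰ - v` satisfies
`14 h¹ < 21 T + 2 g ^ 2`. If the system is special, then `m₁₀ ≥ 2`,

* `v ≤ T - c`, or `14 v < 7 (T - c) + 14 + g ^ 2`,
* its dimension `h⁰` satisfies `h⁰ ≤ T`, or `14 h⁰ < 7 (T + c) + 14 + g ^ 2`,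
* `c ≥ 1`, `7 c < 4 T`, `3 (m₉ + 1) c < 2 S` and `d < 2 S`.

So for given `m₁₀, …, m_s` at most finitely many systems in the range of Q1 are special: their
degree is less than `2 S`, whatever the nine largest multiplicities are, and Q1 holds

* if `7 (3 d - m₁ - ⋯ - m₉) ≥ 4 ∑ (m i + 1)`, the sum over `i ≥ 10` with `m i ≥ 2`
  (for instance for ten points if `7 (3 d - m₁ - ⋯ - m₉) ≥ 4 (m₁₀ + 1)`), and
* if `3 (m₉ + 1) ≥ 2 ∑ (m i + 1) ^ 2`, the sum over `i ≥ 10` with `m i ≥ 2`, for EVERY degree `d`.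

Also the bounds for `h¹`, `v` and `h⁰` do not depend on the nine largest multiplicities (as
`7 c < 4 T`), unlike the bounds `binom m₁ 2` and `(m₁ - 1)(m₁₀ - 1)` of the library, and for
bounded `g` they are linear in `T`.

Proof. Let `D = d H - ∑ m i E i` on the blow-up `X` at generic points, without the simple points,
and `L = D - K`.
(1) (Vanishing.) If `L` is nef, `L ^ 2 > 0` and `L` is effective, then `h¹ (K + L) = 0`. This is proved
for systems of plane curves: for an irreducible curve `G` and an effective `S` with `S G ≥ 1` one has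
`h¹ (K + S + G) ≤ h¹ (K + S)`, and `h¹ (K + G) = 0`; both follow from the duality (Cayley–Bacharach)
for `G` and a product of lines. The components of a member of `L`, and the curves `E i`, can be
added in such an order, because `A B ≥ 1` for every decomposition `L = A + B` of a nef and big class
into nonzero effective classes.
(2) `L` is in standard form, so that it is nef if `7 L ^ 2 ≥ g ^ 2` (theorem of the library on the cone
of curves), and it is effective if `χ (L) ≥ 1`. Here `L ^ 2 = D₉ ^ 2 + 2 c - S` and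
`χ (L) = χ (D) + c - T`, where `D₉ = d H - m₁ E₁ - ⋯ - m₉ E₉`.
(3) `D₉ + m₉ K₉` is in standard form, hence `D₉ ^ 2 ≥ 2 m₉ c` and `d ≤ 3 (m₉ + c)`; and `c ≥ 1` if the
system is not empty, as there is only one cubic through nine general points.
(4) With the cubic `Γ` through nine of the points, `h⁰ (D) ≤ h⁰ (D + t Γ)`. Take the smallest `t` for
which (2) applies to `D + t Γ`: its dimension is the expected one, which is bounded as (2) does not
apply to `D + (t - 1) Γ`.
(5) If the system is not empty, then `7 D ^ 2 > - g ^ 2`: otherwise `n D + j H` is nef (as in (2)) and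
negative on `D` for suitable `n` and `j`. This bounds `v` from below and hence `h¹ = h⁰ - v`.
-/

set_option autoImplicit false

namespace Pool.Agent.Results.MP_d3128a_ag.BoundedByTail

open MvPolynomial

/-- The forms of degree `d` with multiplicity at least `m i` at the point `(P i 0 : P i 1 : 1)`. -/
noncomputable def system {s : ℕ} (P : Fin s → Fin 2 → ℂ) (d : ℕ) (m : ℕ → ℕ) :
    Submodule ℂ (MvPolynomial (Fin 3) ℂ) :=
  homogeneousSubmodule (Fin 3) ℂ d ⊓ Submodule.restrictScalars ℂ (⨅ i : Fin s,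
    (Ideal.span ({X 0 - C (P i 0) * X 2, X 1 - C (P i 1) * X 2} :
      Set (MvPolynomial (Fin 3) ℂ))) ^ (m i))

/-- The virtual dimension plus one, for `s` points. -/
def vdimAddOne (s d : ℕ) (m : ℕ → ℕ) : ℤ :=
  ((d + 2).choose 2 : ℤ) - ∑ i ∈ Finset.range s, ((m i + 1).choose 2 : ℤ)

/-- The property holds for all `s`-tuples of points outside some hypersurface. -/
def Generally {s : ℕ} (p : (Fin s → Fin 2 → ℂ) → Prop) : Prop :=
  ∃ F : MvPolynomial (Fin s × Fin 2) ℂ, F ≠ 0 ∧
    ∀ P : Fin s → Fin 2 → ℂ, eval (fun ij : Fin s × Fin 2 => P ij.1 ij.2) F ≠ 0 → p P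

/-- The system of degree `d` for `s` general points with the multiplicities `m i`, `i < s`, is
special. -/
def IsSpecial (s d : ℕ) (m : ℕ → ℕ) : Prop :=
  ¬ Generally fun P : Fin s → Fin 2 → ℂ =>
    (Module.finrank ℂ (system P d m) : ℤ) = max (vdimAddOne s d m) 0

/-- `c`: three times the degree minus the sum of the nine largest multiplicities. -/
def slack (d : ℕ) (m : ℕ → ℕ) : ℤ := 3 * (d : ℤ) - ∑ i ∈ Finset.range 9, (m i : ℤ)

/-- The indices after the ninth with multiplicity at least two. -/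
def tail (s : ℕ) (m : ℕ → ℕ) : Finset ℕ := (Finset.range s).filter fun i => 9 ≤ i ∧ 2 ≤ m i

/-- `T`: the sum of the `m i + 1` over the tail. -/
def tailSum (s : ℕ) (m : ℕ → ℕ) : ℤ := ∑ i ∈ tail s m, ((m i : ℤ) + 1)

/-- `S`: the sum of the `(m i + 1) ^ 2` over the tail. -/
def tailSquares (s : ℕ) (m : ℕ → ℕ) : ℤ := ∑ i ∈ tail s m, ((m i : ℤ) + 1) ^ 2

/-- Every multiplicity `m i` of the tail satisfies `m i + 1 ≤ g`, or `m j < m i ≤ 2 m j` for some
multiplicity `m j` of the tail. -/
def GapBound (s : ℕ) (m : ℕ → ℕ) (g : ℕ) : Prop :=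
  ∀ i ∈ tail s m, m i + 1 ≤ g ∨ ∃ j ∈ tail s m, m j < m i ∧ m i ≤ 2 * m j

/-- The system is in the range of Q1: `m₁ ≥ m₂ ≥ ⋯` and `d ≥ m₁ + m₂ + m₃`. -/
def InRange (s d : ℕ) (m : ℕ → ℕ) : Prop :=
  Antitone m ∧ (∀ i, s ≤ i → m i = 0) ∧ m 0 + m 1 + m 2 ≤ d

open Pool.Agent.K4H28.SP Pool.Agent.H51 Pool.Agent.H51.KV

theorem gen_dim (s d : ℕ) (m : ℕ → ℕ) :
    Generally fun P : Fin s → Fin 2 → ℂ =>
      Module.finrank ℂ (system P d m) = gd (fun i : Fin s => m i) d := by
  obtain ⟨F, hF, h⟩ := gd_spec (fun i : Fin s => m i) d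
  refine ⟨F.map (algebraMap ℚ ℂ), fun h0 => hF ?_, fun P hP => ?_⟩
  · exact map_injective _ (algebraMap ℚ ℂ).injective (h0.trans (map_zero _).symm)
  · rw [eval_map] at hP
    exact h ℂ P hP

theorem Generally.mono {s : ℕ} {p r : (Fin s → Fin 2 → ℂ) → Prop} (h : Generally p)
    (hpr : ∀ P, p P → r P) : Generally r := by
  obtain ⟨F, hF, h1⟩ := h
  exact ⟨F, hF, fun P hP => hpr P (h1 P hP)⟩

theorem vdim_eq (s d : ℕ) (m : ℕ → ℕ) : vdimAddOne s d m =
    ((d + 2).choose 2 : ℤ) - ((∑ i : Fin s, (m i + 1).choose 2 : ℕ) : ℤ) := by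
  unfold vdimAddOne
  rw [Nat.cast_sum, Finset.sum_range]

theorem ge_vdim (s d : ℕ) (m : ℕ → ℕ) : vdimAddOne s d m ≤ gd (fun i : Fin s => m i) d := by
  have h := gd_ge (m := fun i : Fin s => m i) (d := d)
  rw [vdim_eq]
  omega

theorem special_gd {s d : ℕ} {m : ℕ → ℕ} (h : IsSpecial s d m) :
    1 ≤ gd (fun i : Fin s => m i) d ∧ vdimAddOne s d m < gd (fun i : Fin s => m i) d := by
  have h1 := ge_vdim s d m
  have h2 : (gd (fun i : Fin s => m i) d : ℤ) ≠ max (vdimAddOne s d m) 0 := by
    intro h3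
    exact h ((gen_dim s d m).mono fun P hP => by rw [hP, h3])
  constructor
  · by_contra hcon
    apply h2
    have h3 : gd (fun i : Fin s => m i) d = 0 := by omega
    have h4 : vdimAddOne s d m ≤ 0 := by omega
    rw [h3, max_eq_right h4]
    rfl
  · by_contra hcon
    apply h2
    have h3 : (gd (fun i : Fin s => m i) d : ℤ) = vdimAddOne s d m := by omega
    rw [h3, max_eq_left]
    rw [← h3]
    exact Int.natCast_nonneg _

theorem tail_sum (f : ℕ → ℤ) (hf : f 0 = 0) (s : ℕ) (m : ℕ → ℕ) :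
    ∑ i ∈ Finset.Ico 9 s, f (up (m i)) = ∑ i ∈ tail s m, f (m i + 1) := by
  have h1 : tail s m = (Finset.Ico 9 s).filter fun i => 2 ≤ m i := by
    ext i
    simp only [tail, Finset.mem_filter, Finset.mem_range, Finset.mem_Ico]
    tauto
  rw [h1, Finset.sum_filter]
  refine Finset.sum_congr rfl fun i _ => ?_
  unfold up
  split_ifs
  · rfl
  · exact hf

theorem tl_eq (s : ℕ) (m : ℕ → ℕ) : tl s m = tailSum s m := by
  unfold tl tailSum
  rw [tail_sum (fun x => (x : ℤ)) rfl]
  exact Finset.sum_congr rfl fun i _ => by push_cast; ring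

theorem tq_eq (s : ℕ) (m : ℕ → ℕ) : tq s m = tailSquares s m := by
  unfold tq tailSquares
  rw [tail_sum (fun x => (x : ℤ) ^ 2) rfl]
  exact Finset.sum_congr rfl fun i _ => by push_cast; ring

/-- The tenth multiplicity of a special system is at least two. -/
theorem two_le {s d : ℕ} {m : ℕ → ℕ} (h : InRange s d m) (hsp : IsSpecial s d m) : 2 ≤ m 9 := by
  classical
  obtain ⟨hm, -, hd⟩ := h
  obtain ⟨h1, h2⟩ := special_gd hsp
  have h3 := three' hm hd
  have hred : Red3 d (fun i : Fin s => m i) := by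
    refine ⟨fun i => ?_, fun i j hij => ?_, fun i j k hij hik hjk => ?_⟩
    · have e0 := hm (Nat.zero_le (i : ℕ))
      change m i ≤ d
      omega
    · have h4 : (i : ℕ) ≠ (j : ℕ) := fun h => hij (Fin.ext h)
      obtain ⟨k, hk1, hk2⟩ : ∃ k : ℕ, (i : ℕ) ≠ k ∧ (j : ℕ) ≠ k :=
        ⟨(i : ℕ) + (j : ℕ) + 1, by omega, by omega⟩
      have := h3 i j k h4 hk1 hk2
      change m i + m j ≤ d
      omega
    · exact h3 i j k (fun h => hij (Fin.ext h)) (fun h => hik (Fin.ext h))
        (fun h => hjk (Fin.ext h))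
  obtain ⟨y, hy, hTB⟩ := SB.gd_trade_red (m := fun i : Fin s => m i) (d := d) hred
    (T := Finset.univ.filter fun i : Fin s => (i : ℕ) < 9) (by
      have e : ∑ i ∈ Finset.univ.filter (fun i : Fin s => (i : ℕ) < 9), m i =
          ∑ x ∈ (Finset.univ.filter (fun i : Fin s => (i : ℕ) < 9)).map Fin.valEmbedding, m x := by
        rw [Finset.sum_map]
        rfl
      have e9 : ∑ i ∈ Finset.range 9, m i ≤ 3 * d := by
        simp only [Finset.sum_range_succ, Finset.sum_range_zero, zero_add]
        have e3 := hm (show 0 ≤ 3 by omega)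
        have e4 := hm (show 1 ≤ 4 by omega)
        have e5 := hm (show 2 ≤ 5 by omega)
        have e6 := hm (show 0 ≤ 6 by omega)
        have e7 := hm (show 1 ≤ 7 by omega)
        have e8 := hm (show 2 ≤ 8 by omega)
        omega
      refine le_trans ?_ e9
      rw [e]
      refine Finset.sum_le_sum_of_subset fun x hx => ?_
      rw [Finset.mem_map] at hx
      obtain ⟨i, hi, rfl⟩ := hx
      exact Finset.mem_range.2 (Finset.mem_filter.1 hi).2)
    (A := m 0) (b := m 9) (fun j _ => hm (Nat.zero_le _)) (fun j hj => by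
      refine hm ?_
      by_contra hcon
      exact hj (Finset.mem_filter.2 ⟨Finset.mem_univ _, by omega⟩))
    (hm (Nat.zero_le 9)) h1
  rcases hTB with h4 | ⟨h4, -⟩
  · rw [vdim_eq] at h2
    omega
  · exact h4

/-- The virtual dimension and the numbers `q`, `c`, `S`, `T`. -/
theorem two_v {s d : ℕ} (hs : 9 ≤ s) (m : ℕ → ℕ) :
    2 * vdimAddOne s d m ≤ qq d m + cc d m + 2 - tq s m + tl s m := by
  unfold vdimAddOne qq cc tq tl
  rw [← Finset.sum_range_add_sum_Ico _ hs]
  have h1 := two_choose_int (d + 2)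
  have h2 : (2 : ℤ) * ∑ i ∈ Finset.range 9, ((m i + 1).choose 2 : ℤ) =
      ∑ i ∈ Finset.range 9, (m i : ℤ) ^ 2 + ∑ i ∈ Finset.range 9, (m i : ℤ) := by
    rw [Finset.mul_sum, ← Finset.sum_add_distrib]
    refine Finset.sum_congr rfl fun i _ => ?_
    have h3 := two_choose_int (m i + 1)
    push_cast at h3
    linarith
  have h3 : ∑ i ∈ Finset.Ico 9 s, (up (m i) : ℤ) ^ 2 - ∑ i ∈ Finset.Ico 9 s, (up (m i) : ℤ) ≤
      (2 : ℤ) * ∑ i ∈ Finset.Ico 9 s, ((m i + 1).choose 2 : ℤ) := by
    rw [Finset.mul_sum, ← Finset.sum_sub_distrib]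
    refine Finset.sum_le_sum fun i _ => ?_
    have h3 := two_choose_int (m i + 1)
    unfold up
    split_ifs with h
    · push_cast at h3 ⊢
      nlinarith
    · push_cast
      positivity
  push_cast at h1
  linarith

/-- The bounds for the special systems. -/
def Bounded (s d : ℕ) (m : ℕ → ℕ) : Prop :=
  2 ≤ m 9 ∧
  (∀ g : ℕ, GapBound s m g →
    (vdimAddOne s d m ≤ tailSum s m - slack d m ∨
      14 * vdimAddOne s d m < 7 * (tailSum s m - slack d m) + 14 + (g : ℤ) ^ 2) ∧
    (Generally fun P : Fin s → Fin 2 → ℂ =>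
      (Module.finrank ℂ (system P d m) : ℤ) ≤ tailSum s m ∨
        14 * (Module.finrank ℂ (system P d m) : ℤ) <
          7 * (tailSum s m + slack d m) + 14 + (g : ℤ) ^ 2)) ∧
  1 ≤ slack d m ∧ 7 * slack d m < 4 * tailSum s m ∧
  3 * ((m 8 : ℤ) + 1) * slack d m < 2 * tailSquares s m ∧ (d : ℤ) < 2 * tailSquares s m

theorem gap_of {s g : ℕ} {m : ℕ → ℕ} (h : GapBound s m g) : Gap s m g := by
  intro i h9 hs h2
  rcases h i (Finset.mem_filter.2 ⟨Finset.mem_range.2 hs, h9, h2⟩) with h3 | ⟨j, hj, h4⟩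
  · exact Or.inl h3
  · obtain ⟨j1, j2, j3⟩ := Finset.mem_filter.1 hj
    exact Or.inr ⟨j, j2, Finset.mem_range.1 j1, j3, h4⟩

theorem bounded_of {s d : ℕ} {m : ℕ → ℕ} (h : InRange s d m) (hsp : IsSpecial s d m) :
    Bounded s d m := by
  have h9 := two_le h hsp
  obtain ⟨hm, hs0, hd⟩ := h
  have hs : 10 ≤ s := by
    by_contra hcon
    have := hs0 9 (by omega)
    omega
  obtain ⟨h1, h2⟩ := special_gd hsp
  have hsp' : 0 < Pool.Agent.K4H51.PTM.h1 d (fun i : Fin s => m i) := by
    unfold Pool.Agent.K4H51.PTM.h1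
    rw [Pool.Agent.TH167.SH.chi_cast]
    rw [vdim_eq] at h2
    omega
  obtain ⟨hc, hor⟩ := bounds hm hd hs h9 h1 hsp'
  obtain ⟨t1, t2⟩ := tail_num (s := s) (m := m) hs h9
  have hv := two_v (d := d) (show 9 ≤ s by omega) m
  have hTm : tq s m ≤ ((m 9 : ℤ) + 1) * tl s m ∧ (m 9 : ℤ) + 1 ≤ tl s m := by
    constructor
    · unfold tq tl
      rw [Finset.mul_sum]
      refine Finset.sum_le_sum fun i hi => ?_
      have h3 : up (m i) ≤ m 9 + 1 := by
        have := hm (Finset.mem_Ico.1 hi).1
        unfold up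
        split_ifs <;> omega
      have h4 : (up (m i) : ℤ) ≤ (m 9 : ℤ) + 1 := by exact_mod_cast h3
      rw [pow_two]
      exact mul_le_mul_of_nonneg_right h4 (by positivity)
    · unfold tl
      have h3 := Finset.single_le_sum (f := fun i => (up (m i) : ℤ)) (s := Finset.Ico 9 s)
        (fun i _ => by positivity) (Finset.mem_Ico.2 ⟨le_rfl, by omega⟩ : 9 ∈ Finset.Ico 9 s)
      have h4 : (up (m 9) : ℤ) = (m 9 : ℤ) + 1 := by
        unfold up
        rw [if_pos h9]
        push_cast
        ring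
      rw [h4] at h3
      exact h3
  have e1 : slack d m = cc d m := rfl
  have hm98 : (m 9 : ℤ) ≤ m 8 := by exact_mod_cast hm (show 8 ≤ 9 by omega)
  have hb2 : (2 : ℤ) ≤ m 9 := by exact_mod_cast h9
  unfold Bounded
  rw [e1, ← tl_eq, ← tq_eq]
  refine ⟨h9, fun g hg => ⟨?_, ?_⟩, hc, ?_, ?_, ?_⟩
  · have h3 := chi_special2 (gap_of hg) hm hd hs h9 h1 hsp'
    rw [Pool.Agent.TH167.SH.chi_cast] at h3
    rw [vdim_eq]
    exact h3
  · refine (gen_dim s d m).mono fun P hP => ?_
    rw [hP]
    exact dim_special2 (gap_of hg) hm hd hs h9 h1 hsp'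
  · rcases hor with ⟨-, h3, -⟩ | ⟨-, h3, -⟩
    · by_contra hcon
      push Not at hcon
      have h4 : (2 * (m 9 : ℤ) + 3) * cc d m ≤ (2 * (m 8 : ℤ) + 3) * cc d m :=
        mul_le_mul_of_nonneg_right (by linarith) (by linarith)
      have h5 : (2 * (m 9 : ℤ) + 3) * (4 * tl s m) ≤ (2 * (m 9 : ℤ) + 3) * (7 * cc d m) :=
        mul_le_mul_of_nonneg_left hcon (by linarith)
      nlinarith [hTm.1, hTm.2]
    · by_contra hcon
      push Not at hcon
      have h4 : ((m 9 : ℤ) + 1) * cc d m ≤ ((m 8 : ℤ) + 1) * cc d m :=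
        mul_le_mul_of_nonneg_right (by linarith) (by linarith)
      have h5 : ((m 9 : ℤ) + 1) * (4 * tl s m) ≤ ((m 9 : ℤ) + 1) * (7 * cc d m) :=
        mul_le_mul_of_nonneg_left hcon (by linarith)
      nlinarith [hTm.1, hTm.2]
  · rcases hor with ⟨-, h3, -⟩ | ⟨-, h3, -⟩
    · nlinarith
    · nlinarith
  · rcases hor with ⟨-, -, h3⟩ | ⟨-, -, h3⟩
    · linarith
    · linarith

/-- The superabundance of the nonempty systems. -/
theorem super_bounded {s d g : ℕ} {m : ℕ → ℕ} (h : InRange s d m) (hg : GapBound s m g) :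
    Generally fun P : Fin s → Fin 2 → ℂ => Module.finrank ℂ (system P d m) = 0 ∨
      (Module.finrank ℂ (system P d m) : ℤ) = vdimAddOne s d m ∨
      14 * ((Module.finrank ℂ (system P d m) : ℤ) - vdimAddOne s d m) <
        21 * tailSum s m + 2 * (g : ℤ) ^ 2 := by
  refine (gen_dim s d m).mono fun P hP => ?_
  rw [hP]
  rcases Nat.eq_zero_or_pos (gd (fun i : Fin s => m i) d) with h0 | h0
  · exact Or.inl h0
  right
  have h2 := ge_vdim s d m
  rcases eq_or_lt_of_le h2 with h3 | h3
  · exact Or.inl h3.symm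
  · right
    have hpos : 0 < Pool.Agent.K4H51.PTM.h1 d (fun i : Fin s => m i) := by
      unfold Pool.Agent.K4H51.PTM.h1
      rw [Pool.Agent.TH167.SH.chi_cast]
      rw [vdim_eq] at h3
      linarith
    have h1 := h1_bound2 (gap_of hg) h.1 h.2.1 h.2.2 h0 hpos
    unfold Pool.Agent.K4H51.PTM.h1 at h1
    rw [Pool.Agent.TH167.SH.chi_cast] at h1
    rw [vdim_eq, ← tl_eq]
    linarith

/-- **Main result.** General points of the complex projective plane. Part 1: the superabundance of
every nonempty system in the range of Q1 is zero or bounded in terms of the multiplicities after the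
ninth.
Part 2: the special systems in the range of Q1 are bounded in terms of these multiplicities. Part 3:
for given multiplicities after the ninth (and given `s`), at most finitely many systems are special.
Part 4: Q1 holds if the ninth multiplicity is large, for every degree. -/
theorem result (s : ℕ) :
    (∀ (d : ℕ) (m : ℕ → ℕ) (g : ℕ), InRange s d m → GapBound s m g →
      Generally fun P : Fin s → Fin 2 → ℂ => Module.finrank ℂ (system P d m) = 0 ∨
        (Module.finrank ℂ (system P d m) : ℤ) = vdimAddOne s d m ∨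
        14 * ((Module.finrank ℂ (system P d m) : ℤ) - vdimAddOne s d m) <
          21 * tailSum s m + 2 * (g : ℤ) ^ 2) ∧
    (∀ (d : ℕ) (m : ℕ → ℕ), InRange s d m → IsSpecial s d m → Bounded s d m) ∧
    (∀ t : ℕ → ℕ, Set.Finite {x : ℕ × (ℕ → ℕ) | InRange s x.1 x.2 ∧
      (∀ i, 9 ≤ i → x.2 i = t i) ∧ IsSpecial s x.1 x.2}) ∧
    ∀ (d : ℕ) (m : ℕ → ℕ), InRange s d m → 2 * tailSquares s m ≤ 3 * ((m 8 : ℤ) + 1) →
      ¬ IsSpecial s d m := by
  classical
  refine ⟨fun d m g h hg => super_bounded h hg, fun d m h hsp => bounded_of h hsp, fun t => ?_,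
    fun d m h hbig hsp => ?_⟩
  · -- the degrees and the nine largest multiplicities are bounded
    obtain ⟨N, hN⟩ : ∃ N : ℕ, N = (2 * tailSquares s t).toNat := ⟨_, rfl⟩
    let φ : ℕ × (Fin 9 → ℕ) → ℕ × (ℕ → ℕ) := fun y =>
      (y.1, fun i => if h : i < 9 then y.2 ⟨i, h⟩ else t i)
    have hfin : Set.Finite (φ '' ((Finset.range N ×ˢ
        Fintype.piFinset fun _ : Fin 9 => Finset.range N : Finset (ℕ × (Fin 9 → ℕ))) :
        Set (ℕ × (Fin 9 → ℕ)))) := (Finset.finite_toSet _).image _
    refine hfin.subset ?_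
    rintro ⟨d, m⟩ ⟨h1, h2, h3⟩
    simp only at h1 h2 h3
    have h4 := (bounded_of h1 h3).2.2.2.2.2
    have h5 : tailSquares s m = tailSquares s t := by
      have e1 : tail s m = tail s t := by
        unfold tail
        refine Finset.filter_congr fun i _ => ?_
        constructor
        · rintro ⟨h6, h7⟩
          exact ⟨h6, by rw [← h2 i h6]; exact h7⟩
        · rintro ⟨h6, h7⟩
          exact ⟨h6, by rw [h2 i h6]; exact h7⟩
      unfold tailSquares
      rw [e1]
      refine Finset.sum_congr rfl fun i hi => ?_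
      rw [h2 i (Finset.mem_filter.1 hi).2.1]
    rw [h5] at h4
    have hd : d < N := by omega
    have hmi : ∀ i, m i < N := by
      intro i
      have h6 := h1.1 (Nat.zero_le i)
      have h7 := h1.2.2
      omega
    refine ⟨(d, fun i => m i), ?_, ?_⟩
    · rw [Finset.mem_coe, Finset.mem_product, Fintype.mem_piFinset]
      exact ⟨Finset.mem_range.2 hd, fun i => Finset.mem_range.2 (hmi i)⟩
    · refine Prod.ext rfl (funext fun i => ?_)
      show (if h : i < 9 then m i else t i) = m i
      split_ifs with h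
      · rfl
      · exact (h2 i (by omega)).symm
  · obtain ⟨-, -, h1, -, h2, -⟩ := bounded_of h hsp
    have h3 : (0 : ℤ) ≤ m 8 := by positivity
    nlinarith

end Pool.Agent.Results.MP_d3128a_ag.BoundedByTail
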