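import Pool.Agent.H55.PB.Range

/-!
# Adding lines through one of the points: at most `m₁₀ - 1` special systems in every direction

Let `P 1, …, P s` be general points of the complex projective plane and `D = d H - ∑ m_i E_i`. Consider
the family of the systems `D + j (H - E_p)`, that is of degree `d + j` with the multiplicity `m_p + j` at
`P_p` and unchanged multiplicities at the other points. It has one of the points and one of the numbers
`e = d - m_p` fixed.

* For ALL systems the dimensions `h j` in the family are strictly convex until their difference is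
  `e + 1`, which is the difference of the virtual dimensions: either `h (j + 1) - h j = e + 1` or
  `h (j + 1) - h j > h j - h (j - 1)`, once `h (j + 1)` is positive.
* In the range `d ≥ m₁ + m₂ + m₃` of Q1, with `b = m₁₀` (or `b = m_{r + 1}` for any `r ≥ 1` with
  `m₁ + ⋯ + m_r ≤ 3 d`): if `D - ∑ k_i (H - E_i)` is not empty for integers `k_i ≥ 0` with
  `∑ k_i ≥ b - 1`, then `D` is non-special. For every `p ≤ r` at most `b - 1` systems
  `D + j (H - E_p)`, `j ≥ 0`, are special, they lie in a window of length `b - 1`, and if `D` is special,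
  then `h⁰ + h¹ ≤ (b - 1) (2 e - b) / 2 + 1`, where `e = d - m_p` (the best choice is `p = 1`).
* The last two assertions also hold for ALL systems if `b` is any bound for the other multiplicities
  with `m_p + b ≤ d + 1`. Here the bound is sharp: `h⁰ = 1` and `h¹ = N (N - 1) / 2` for `D = N C`,
  where `C` is the `(-1)`-curve of degree `a` with a point of multiplicity `a - 1` and `2 a` simple points,
  and `b = e = N`.

Proof. Let `L` be a general line through `P_p`, `q` another general point of it, and `R (D)` the space of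
the restrictions to `L` of the forms of the system, so `h⁰ (D) = h⁰ (D - (H - E_p)) + dim R (D)`. Clearly
`R (D) ⊇ R (D - (H - E_p))`. If these spaces are equal, `R (D)` is stable under all derivations of the
ground field which move one of the points `P_i`, `i ≠ p`, as the line through `P_p` and `P_i` can be added
after such a motion. The forms of the system are invariant under the simultaneous motion of the points
and the plane along the vector fields which vanish at `P_p`, with their lines through `P_p`. Hence `R (D)`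
is stable under the translations of `L` which fix `P_p`, and as the multiplicity at `P_p` is attained,
`R (D)` contains all polynomials of degree at most `e`. So the dimension of `R (D + j (H - E_p))` grows
in every step until it is `e + 1`; it also grows if a line through another point is added, as
`R (D + (H - E_i))` contains the products of `R (D)` with all linear forms. Since the translations of `q`
along `L` act on `R (D)`, the vanishing orders of its elements at `q` are `0, 1, …, dim R (D) - 1`. By
induction `D` separates the jets of order `k` at `q` if `D - ∑ k_i (H - E_i)` is not empty and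
`∑ k_i = k`; so the points of multiplicity at most `k + 1` impose independent conditions. The others do
so in the range of Q1 (degeneration to a cuspidal cubic).
-/

set_option autoImplicit false

namespace Pool.Agent.Results.MP_d3128a_ag.PencilWindow

open MvPolynomial

/-- The forms of degree `d` with multiplicity at least `m i` at the point `(P i 0 : P i 1 : 1)`. -/
noncomputable def system {s : ℕ} (P : Fin s → Fin 2 → ℂ) (d : ℕ) (m : ℕ → ℕ) :
    Submodule ℂ (MvPolynomial (Fin 3) ℂ) :=
  homogeneousSubmodule (Fin 3) ℂ d ⊓ Submodule.restrictScalars ℂ (⨅ i : Fin s,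
    (Ideal.span ({X 0 - C (P i 0) * X 2, X 1 - C (P i 1) * X 2} :
      Set (MvPolynomial (Fin 3) ℂ))) ^ (m i))

/-- The virtual dimension plus one, for `s` points. -/
def vdimAddOne (s d : ℕ) (m : ℕ → ℕ) : ℤ :=
  ((d + 2).choose 2 : ℤ) - ∑ i ∈ Finset.range s, ((m i + 1).choose 2 : ℤ)

/-- The property holds for all `s`-tuples of points outside some hypersurface. -/
def Generally {s : ℕ} (p : (Fin s → Fin 2 → ℂ) → Prop) : Prop :=
  ∃ F : MvPolynomial (Fin s × Fin 2) ℂ, F ≠ 0 ∧
    ∀ P : Fin s → Fin 2 → ℂ, eval (fun ij : Fin s × Fin 2 => P ij.1 ij.2) F ≠ 0 → p P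

/-- The system of degree `d` for `s` general points with the multiplicities `m i`, `i < s`, is
special. -/
def IsSpecial (s d : ℕ) (m : ℕ → ℕ) : Prop :=
  ¬ Generally fun P : Fin s → Fin 2 → ℂ =>
    (Module.finrank ℂ (system P d m) : ℤ) = max (vdimAddOne s d m) 0

/-- The system of degree `d` for `s` general points with the multiplicities `m i`, `i < s`, is
empty. -/
def IsEmptySystem (s d : ℕ) (m : ℕ → ℕ) : Prop :=
  Generally fun P : Fin s → Fin 2 → ℂ => Module.finrank ℂ (system P d m) = 0

/-- The multiplicities of `D + j (H - E_p)`. -/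
def shift (m : ℕ → ℕ) (p j : ℕ) : ℕ → ℕ := Function.update m p (m p + j)

/-- The dimensions of `D`, `D + (H - E_p)`, `D + 2 (H - E_p)` are strictly convex, or the last
difference is `d - m p + 1`. -/
def Convex (s d : ℕ) (m : ℕ → ℕ) (p : ℕ) : Prop :=
  Generally fun P : Fin s → Fin 2 → ℂ =>
    ∀ h : ℕ → ℤ, (∀ j, h j = Module.finrank ℂ (system P (d + j) (shift m p j))) → 1 ≤ h 2 →
      h 1 - h 0 < h 2 - h 1 ∨ h 2 - h 1 = d - m p + 1

/-- The bounds for the system and for the family of the systems `D + j (H - E_p)`. -/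
def Bounds (s d : ℕ) (m : ℕ → ℕ) (p b : ℕ) : Prop :=
  (IsSpecial s d m → 2 ≤ b ∧
    2 * |vdimAddOne s d m| < ((b : ℤ) - 1) * (2 * ((d : ℤ) - m p) - b) ∧
    Generally fun P : Fin s → Fin 2 → ℂ =>
      ∀ h0 h1 : ℤ, h0 = Module.finrank ℂ (system P d m) → h1 = h0 - vdimAddOne s d m →
        2 * (h0 + h1) ≤ ((b : ℤ) - 1) * (2 * ((d : ℤ) - m p) - b) + 2) ∧
  ∃ j₀ : ℕ, ∀ j, IsSpecial s (d + j) (shift m p j) → j₀ ≤ j ∧ j + 1 < j₀ + b

/-- If the system `D - ∑ k i (H - E_i)` is not empty and `∑ k i ≥ b - 1`, then `D` is not special. -/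
def Criterion (s d : ℕ) (m : ℕ → ℕ) (b : ℕ) : Prop :=
  ∀ k : ℕ → ℕ, b ≤ ∑ i ∈ Finset.range s, k i + 1 → ∑ i ∈ Finset.range s, k i ≤ d →
    ¬ IsEmptySystem s (d - ∑ i ∈ Finset.range s, k i) (fun i => m i - k i) → ¬ IsSpecial s d m

open Pool.Agent.K4H28.SP Pool.Agent.H55.PB

theorem gen_dim (s d : ℕ) (m : ℕ → ℕ) :
    Generally fun P : Fin s → Fin 2 → ℂ =>
      Module.finrank ℂ (system P d m) = gd (fun i : Fin s => m i) d := by
  obtain ⟨F, hF, h⟩ := gd_spec (fun i : Fin s => m i) d
  refine ⟨F.map (algebraMap ℚ ℂ), fun h0 => hF ?_, fun P hP => ?_⟩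
  · exact map_injective _ (algebraMap ℚ ℂ).injective (h0.trans (map_zero _).symm)
  · rw [eval_map] at hP
    exact h ℂ P hP

theorem Generally.mono {s : ℕ} {p r : (Fin s → Fin 2 → ℂ) → Prop} (h : Generally p)
    (hpr : ∀ P, p P → r P) : Generally r := by
  obtain ⟨F, hF, h1⟩ := h
  exact ⟨F, hF, fun P hP => hpr P (h1 P hP)⟩

theorem Generally.and {s : ℕ} {p r : (Fin s → Fin 2 → ℂ) → Prop} (h : Generally p)
    (h' : Generally r) : Generally fun P => p P ∧ r P := by
  obtain ⟨F, hF, h1⟩ := h
  obtain ⟨G, hG, h2⟩ := h'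
  refine ⟨F * G, mul_ne_zero hF hG, fun P hP => ?_⟩
  rw [map_mul] at hP
  exact ⟨h1 P (left_ne_zero_of_mul hP), h2 P (right_ne_zero_of_mul hP)⟩

theorem vdim_eq (s d : ℕ) (m : ℕ → ℕ) : vdimAddOne s d m =
    ((d + 2).choose 2 : ℤ) - ((∑ i : Fin s, (m i + 1).choose 2 : ℕ) : ℤ) := by
  unfold vdimAddOne
  rw [Nat.cast_sum, Finset.sum_range]

theorem ge_vdim (s d : ℕ) (m : ℕ → ℕ) : vdimAddOne s d m ≤ gd (fun i : Fin s => m i) d := by
  have h := gd_ge (m := fun i : Fin s => m i) (d := d)
  rw [vdim_eq]
  omega

theorem special_gd {s d : ℕ} {m : ℕ → ℕ} (h : IsSpecial s d m) :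
    1 ≤ gd (fun i : Fin s => m i) d ∧ gd (fun i : Fin s => m i) d +
      ∑ i : Fin s, (m i + 1).choose 2 ≠ (d + 2).choose 2 := by
  have h1 := ge_vdim s d m
  have h2 : (gd (fun i : Fin s => m i) d : ℤ) ≠ max (vdimAddOne s d m) 0 := by
    intro h3
    exact h ((gen_dim s d m).mono fun P hP => by rw [hP, h3])
  constructor
  · by_contra hcon
    apply h2
    have h3 : gd (fun i : Fin s => m i) d = 0 := by omega
    have h4 : vdimAddOne s d m ≤ 0 := by omega
    rw [h3, max_eq_right h4]
    rfl
  · intro hcon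
    apply h2
    have h3 : (gd (fun i : Fin s => m i) d : ℤ) = vdimAddOne s d m := by
      rw [vdim_eq]
      omega
    rw [h3, max_eq_left]
    rw [← h3]
    exact Int.natCast_nonneg _

theorem shift_fam {s d : ℕ} {m : ℕ → ℕ} {p : ℕ} (hp : p < s) (hd : m p ≤ d) (j : ℕ) :
    (fun i : Fin s => shift m p j i) = fam (fun i : Fin s => m i) ⟨p, hp⟩ (d - m p) (d + j) := by
  funext i
  unfold shift
  by_cases h : i = ⟨p, hp⟩
  · subst h
    rw [fam_self, Function.update_self]
    omega
  · rw [fam_of_ne h, Function.update_of_ne]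
    intro h'
    exact h (Fin.ext h')

theorem bounds_of {s d : ℕ} {m : ℕ → ℕ} {p b : ℕ} (hp : p < s) (hd : m p ≤ d)
    (hbd : b + m p ≤ d + 1) {T : Finset (Fin s)} (hpT : (⟨p, hp⟩ : Fin s) ∈ T)
    (hT : ∀ i : Fin s, i ∉ T → m i ≤ b)
    (hbase : Base (fun i : Fin s => m i) ⟨p, hp⟩ (d - m p) T d) : Bounds s d m p b := by
  refine ⟨fun hsp => ?_, ?_⟩
  · obtain ⟨h1, h2⟩ := special_gd hsp
    have h3 := gd_ge (m := fun i : Fin s => m i) (d := d)
    obtain ⟨x, hx⟩ : ∃ x, gd (fun i : Fin s => m i) d + ∑ i : Fin s, (m i + 1).choose 2 =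
        (d + 2).choose 2 + x := ⟨_, (Nat.add_sub_of_le h3).symm⟩
    have hx0 : 1 ≤ x := by
      rcases Nat.eq_zero_or_pos x with h | h
      · rw [h] at hx
        exact absurd hx h2
      · exact h
    obtain ⟨h4, h5⟩ := joint (m := fun i : Fin s => m i) (e := d - m p) (b := b) hpT hT (by omega)
      (show m p + (d - m p) = d by omega) hbase h1 hx hx0
    obtain ⟨c, rfl⟩ : ∃ c, b = c + 1 := ⟨b - 1, by omega⟩
    rw [Nat.add_sub_cancel] at h5
    have h6 : ((d - m p : ℕ) : ℤ) = (d : ℤ) - m p := Int.ofNat_sub hd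
    have h7 : (2 * ((gd (fun i : Fin s => m i) d : ℤ) + x)) ≤
        (((c + 1 : ℕ) : ℤ) - 1) * (2 * ((d : ℤ) - m p) - ((c + 1 : ℕ) : ℤ)) + 2 := by
      have h8 : (2 * ((gd (fun i : Fin s => m i) d : ℤ) + x) + c * c + c) ≤
          2 + 2 * c * ((d - m p : ℕ) : ℤ) := by exact_mod_cast h5
      rw [h6] at h8
      push_cast
      linarith
    have h8 : vdimAddOne s d m = (gd (fun i : Fin s => m i) d : ℤ) - x := by
      rw [vdim_eq]
      omega
    refine ⟨h4, ?_, (gen_dim s d m).mono fun P hP h0 h1' e0 e1 => ?_⟩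
    · have h9 : 2 * |vdimAddOne s d m| ≤ 2 * ((gd (fun i : Fin s => m i) d : ℤ) + x) - 4 := by
        rw [h8]
        rcases abs_cases ((gd (fun i : Fin s => m i) d : ℤ) - x) with h | h <;> omega
      linarith
    · rw [hP] at e0
      have e2 : h0 + h1' = (gd (fun i : Fin s => m i) d : ℤ) + x := by omega
      rw [e2]
      exact h7
  · obtain ⟨j₀, h⟩ := window (m := fun i : Fin s => m i) (p := ⟨p, hp⟩) (e := d - m p) (b := b)
      hpT hT (by omega) (Nat.sub_le _ _) hbase
    refine ⟨j₀, fun j hsp => ?_⟩
    obtain ⟨h1, h2⟩ := special_gd hsp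
    have e1 := shift_fam hp hd j
    have h3 := h j (by
      unfold GG
      rw [← e1]
      exact h1) (by
      unfold GG cc
      rw [← e1]
      exact h2)
    omega

theorem three {m : ℕ → ℕ} {d : ℕ} (hm : Antitone m) (hd : m 0 + m 1 + m 2 ≤ d) :
    ∀ i j k : ℕ, i ≠ j → i ≠ k → j ≠ k → m i + m j + m k ≤ d := by
  have key : ∀ i j k : ℕ, i < j → j < k → m i + m j + m k ≤ d := by
    intro i j k h1 h2
    have e0 := hm (Nat.zero_le i)
    have e1 := hm (show 1 ≤ j by omega)
    have e2 := hm (show 2 ≤ k by omega)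
    omega
  intro i j k h1 h2 h4
  rcases Nat.lt_or_gt_of_ne h1 with a1 | a1 <;> rcases Nat.lt_or_gt_of_ne h2 with a2 | a2 <;>
    rcases Nat.lt_or_gt_of_ne h4 with a3 | a3
  · have := key i j k a1 a3
    omega
  · have := key i k j a2 a3
    omega
  · omega
  · have := key k i j a2 a1
    omega
  · have := key j i k a1 a2
    omega
  · omega
  · have := key j k i a3 a2
    omega
  · have := key k j i a3 a1
    omega

theorem two {m : ℕ → ℕ} {d : ℕ} (hm : Antitone m) (hd : m 0 + m 1 + m 2 ≤ d) {i j : ℕ}
    (h : i ≠ j) : m i + m j ≤ d := by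
  obtain ⟨k, hk1, hk2⟩ : ∃ k : ℕ, i ≠ k ∧ j ≠ k := ⟨i + j + 1, by omega, by omega⟩
  have := three hm hd i j k h hk1 hk2
  omega

/-- **Main result.** General points of the complex projective plane. The first two parts are about
all systems; the third one is about the range of Q1: multiplicities `m 0 ≥ m 1 ≥ ⋯` and degree
`d ≥ m 0 + m 1 + m 2`, with `b = m r` for `r = 9` or any `r ≥ 1` with `m 0 + ⋯ + m (r - 1) ≤ 3 d`. -/
theorem result (s d : ℕ) (m : ℕ → ℕ) :
    (∀ p, p < s → m p ≤ d → Convex s d m p) ∧
    (∀ p b, p < s → m p ≤ d → b + m p ≤ d + 1 → (∀ i, i < s → i ≠ p → m i ≤ b) →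
      Bounds s d m p b) ∧
    (1 ≤ s → Antitone m → (∀ i, s ≤ i → m i = 0) → m 0 + m 1 + m 2 ≤ d →
      ∀ r, r = 9 ∨ (1 ≤ r ∧ ∑ i ∈ Finset.range r, m i ≤ 3 * d) →
        Criterion s d m (m r) ∧ ∀ p, p < r → p < s → Bounds s d m p (m r)) := by
  classical
  refine ⟨fun p hp hd => ?_, fun p b hp hd hbd hb => ?_, fun hs hm _ hd r hr => ?_⟩
  · have h0 := (gen_dim s (d + 0) (shift m p 0)).and
      ((gen_dim s (d + 1) (shift m p 1)).and (gen_dim s (d + 2) (shift m p 2)))
    refine h0.mono fun P hP h hh h2 => ?_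
    rw [shift_fam hp hd 0, shift_fam hp hd 1, shift_fam hp hd 2] at hP
    have a0 := hh 0
    have a1 := hh 1
    have a2 := hh 2
    rw [hP.1] at a0
    rw [hP.2.1] at a1
    rw [hP.2.2] at a2
    have hseq := seq_inst (m := fun i : Fin s => m i) (p := ⟨p, hp⟩) (e := d - m p)
    have s1 := hseq.succ d
    have s2 := hseq.succ (d + 1)
    have s3 := hseq.le (d + 2)
    have s4 := hseq.grow (d + 1) (by
      unfold GG
      have e1 : d + 1 + 1 = d + 2 := rfl
      rw [e1]
      omega)
    unfold GG at s1 s2
    have e0 : d + 0 = d := rfl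
    have e1 : d + 1 + 1 = d + 2 := rfl
    rw [e0] at a0
    rw [e1] at s2 s4
    have e2 : ((d - m p : ℕ) : ℤ) = (d : ℤ) - m p := Int.ofNat_sub hd
    rcases s4 with s4 | s4
    · left
      omega
    · right
      omega
  · have h1 := base_one (m := fun i : Fin s => m i) (p := ⟨p, hp⟩) (e := d - m p) (d := d)
    refine bounds_of hp hd hbd (Finset.mem_singleton_self _) (fun i hi => ?_) h1
    refine hb i i.2 fun h => hi ?_
    rw [Finset.mem_singleton]
    exact Fin.ext h
  · have hred : Red3 d (fun i : Fin s => m i) := by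
      refine ⟨fun i => ?_, fun i j hij => ?_, fun i j k hij hik hjk => ?_⟩
      · have e0 := hm (Nat.zero_le (i : ℕ))
        change m i ≤ d
        omega
      · exact two hm hd (fun h => hij (Fin.ext h))
      · exact three hm hd i j k (fun h => hij (Fin.ext h)) (fun h => hik (Fin.ext h))
          (fun h => hjk (Fin.ext h))
    have hr1 : 1 ≤ r ∧ ∑ i ∈ Finset.range r, m i ≤ 3 * d := by
      rcases hr with h9 | hr
      · subst h9
        refine ⟨by omega, ?_⟩
        simp only [Finset.sum_range_succ, Finset.sum_range_zero, zero_add]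
        have e3 := hm (show 0 ≤ 3 by omega)
        have e4 := hm (show 1 ≤ 4 by omega)
        have e5 := hm (show 2 ≤ 5 by omega)
        have e6 := hm (show 0 ≤ 6 by omega)
        have e7 := hm (show 1 ≤ 7 by omega)
        have e8 := hm (show 2 ≤ 8 by omega)
        omega
      · exact hr
    set T : Finset (Fin s) := Finset.univ.filter fun i : Fin s => (i : ℕ) < r with hT
    have hTs : ∑ i ∈ T, m i ≤ 3 * d := by
      refine le_trans ?_ hr1.2
      have e : ∑ i ∈ T, m i = ∑ x ∈ T.map Fin.valEmbedding, m x := by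
        rw [Finset.sum_map]
        rfl
      rw [e]
      refine Finset.sum_le_sum_of_subset fun x hx => ?_
      rw [Finset.mem_map] at hx
      obtain ⟨i, hi, rfl⟩ := hx
      exact Finset.mem_range.2 (Finset.mem_filter.1 hi).2
    have hTb : ∀ i : Fin s, i ∉ T → m i ≤ m r := by
      intro i hi
      refine hm ?_
      by_contra hcon
      exact hi (Finset.mem_filter.2 ⟨Finset.mem_univ _, by omega⟩)
    constructor
    · intro k hk hkd hne hsp
      obtain ⟨h1, h2⟩ := special_gd hsp
      apply h2
      refine criterion (m := fun i : Fin s => m i) (κ := fun i : Fin s => k i) hred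
        (t := ⟨0, hs⟩) (T := T) (Finset.mem_filter.2 ⟨Finset.mem_univ _, hr1.1⟩) hTs hTb
        (fun i => ?_) (by rwa [← Finset.sum_range]) (by rwa [← Finset.sum_range]) ?_
      · by_cases h : (i : ℕ) = r
        · have e0 := hm (Nat.zero_le r)
          have e1 := two hm hd (i := 0) (j := r) (by omega)
          change m i + m r ≤ d + 1
          rw [h]
          omega
        · have := two hm hd h
          change m i + m r ≤ d + 1
          omega
      · by_contra hcon
        have e : gd (low (fun i : Fin s => m i) (fun i : Fin s => k i))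
            (d - ∑ i ∈ Finset.range s, k i) = 0 := by
          rw [Finset.sum_range]
          omega
        exact hne ((gen_dim s (d - ∑ i ∈ Finset.range s, k i) (fun i => m i - k i)).mono
          fun P hP => hP.trans e)
    · intro p hpr hps
      have hmp : m p ≤ d := hred.1 ⟨p, hps⟩
      have h1 := two hm hd (i := r) (j := p) (by omega)
      have hpT : (⟨p, hps⟩ : Fin s) ∈ T := Finset.mem_filter.2 ⟨Finset.mem_univ _, hpr⟩
      exact bounds_of hps hmp (by omega) hpT hTb
        (base_range (m := fun i : Fin s => m i) hred (by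
          change m p + (d - m p) = d
          omega) hpT hTs)

end Pool.Agent.Results.MP_d3128a_ag.PencilWindow
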