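import Pool.Agent.H51.SB.Gd

/-!
# The range of Q1: the superabundance is at most of the order `m₁ m₁₀ log m₁₀`

Let `P 1, …, P s` be general points of the complex projective plane, with ANY multiplicities
`m₁ ≥ m₂ ≥ ⋯`, and let `d ≥ m₁ + m₂ + m₃` (the range of Q1). Let `v` be the virtual dimension plus one,
and put `A = m₁` and `b = m₁₀` (or `b = m_{r + 1}` for any `r` with `m₁ + ⋯ + m_r ≤ 3 d`). If the system
is special, then `b ≥ 2` and

  `- (b - 1) (A + b) (1 + log⁺ ((b - 1) / 2)) < v < (A - 1) (b - 1)`.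

More precisely, if the system is not empty and its dimension `h⁰` (of the vector space) is not `v`,
then `h⁰` and the superabundance `h¹ = h⁰ - v` satisfy

  `h⁰ ≤ (A - 1) (b - 1)`, `2 h¹ + (b - 1) h⁰ ≤ (b - 1) (A (b - 1) + 1)`,
  `h¹ + Φ (h⁰) ≤ b (b - 1) / 2 + Φ ((A - 1) (b - 1))`, `h¹ ≤ (b - 1) (A + b) (1 + log⁺ ((b - 1) / 2))`,

where, with `X = 2 A + b - 1`, `Φ (x) = (b - 1) x / 2` for `x ≤ X` and
`Φ (x) = (b - 1) X (1 + log (x / X)) / 2` for `x ≥ X`.

Proof. If `m₁ + ⋯ + m_r ≤ 3 d`, the first `r` multiplicities impose independent conditions, in the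
range of Q1 (degeneration to a cuspidal cubic). Add the others one at a time. For a further general
point `q` let `i k` be the dimension of the space of the binary symbols of degree `k` which annihilate
the leading forms of degree `k` at `q` of the curves of the system with multiplicity `k` at `q`. A
point of multiplicity `a` gives `T = i 0 + ⋯ + i (a - 1)` dependent conditions, and lowers the
dimension `h` by `S = a (a + 1) / 2 - T`. Let `c = a - i (a - 1)` be the number of the leading forms of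
degree `a - 1`. As `i` grows by at least one in every step once it is positive, `T` is at most
`(a - c) (a - c + 1) / 2`. Adding a point of the multiplicity `A` gives a system whose numbers `i'`
grow by at least two in every step as long as the annihilator is not everything; hence
`h ≤ 2 S + c (A - a) + c (c - 1) / 2 - c`. Both inequalities together give `2 T ≤ (a - 1) S` and
`2 T h ≤ (a - 1) S (2 A + a - 1)`, so `T ≤ Φ (h) - Φ (h - S)`: the dependent conditions are paid for by
the dimension.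
-/

set_option autoImplicit false

namespace Pool.Agent.Results.MP_d3128a_ag.TenthSuperabundance

open MvPolynomial

/-- The forms of degree `d` with multiplicity at least `m i` at the point `(P i 0 : P i 1 : 1)`. -/
noncomputable def system {s : ℕ} (P : Fin s → Fin 2 → ℂ) (d : ℕ) (m : ℕ → ℕ) :
    Submodule ℂ (MvPolynomial (Fin 3) ℂ) :=
  homogeneousSubmodule (Fin 3) ℂ d ⊓ Submodule.restrictScalars ℂ (⨅ i : Fin s,
    (Ideal.span ({X 0 - C (P i 0) * X 2, X 1 - C (P i 1) * X 2} :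
      Set (MvPolynomial (Fin 3) ℂ))) ^ (m i))

/-- The virtual dimension plus one, for `s` points. -/
def vdimAddOne (s d : ℕ) (m : ℕ → ℕ) : ℤ :=
  ((d + 2).choose 2 : ℤ) - ∑ i ∈ Finset.range s, ((m i + 1).choose 2 : ℤ)

/-- The property holds for all `s`-tuples of points outside some hypersurface. -/
def Generally {s : ℕ} (p : (Fin s → Fin 2 → ℂ) → Prop) : Prop :=
  ∃ F : MvPolynomial (Fin s × Fin 2) ℂ, F ≠ 0 ∧
    ∀ P : Fin s → Fin 2 → ℂ, eval (fun ij : Fin s × Fin 2 => P ij.1 ij.2) F ≠ 0 → p P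

/-- The system of degree `d` for `s` general points with the multiplicities `m i`, `i < s`, is
special. -/
def IsSpecial (s d : ℕ) (m : ℕ → ℕ) : Prop :=
  ¬ Generally fun P : Fin s → Fin 2 → ℂ =>
    (Module.finrank ℂ (system P d m) : ℤ) = max (vdimAddOne s d m) 0

/-- The function `Φ`: linear up to `2 A + b - 1`, logarithmic from there on. -/
noncomputable def potential (A b : ℕ) (x : ℝ) : ℝ :=
  if x ≤ 2 * A + (b - 1) then (b - 1) * x / 2
  else (b - 1) * (2 * A + (b - 1)) / 2 * (1 + Real.log (x / (2 * A + (b - 1))))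

/-- The bound `(b - 1) (A + b) (1 + log⁺ ((b - 1) / 2))`. -/
noncomputable def bound (A b : ℕ) : ℝ :=
  ((b : ℝ) - 1) * (A + b) * (1 + max 0 (Real.log (((b : ℝ) - 1) / 2)))

/-- The bounds for the system of degree `d` with the multiplicities `m i`, `i < s`. -/
def Bounds (s d : ℕ) (m : ℕ → ℕ) (A b : ℕ) : Prop :=
  (IsSpecial s d m → 2 ≤ b ∧ -bound A b < vdimAddOne s d m ∧
    vdimAddOne s d m < ((A : ℤ) - 1) * ((b : ℤ) - 1)) ∧
  Generally fun P : Fin s → Fin 2 → ℂ =>
    ∀ h0 h1 : ℤ, h0 = Module.finrank ℂ (system P d m) → h1 = h0 - vdimAddOne s d m →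
      1 ≤ h0 → h1 ≠ 0 →
        2 ≤ b ∧ h0 ≤ ((A : ℤ) - 1) * ((b : ℤ) - 1) ∧
        2 * h1 + ((b : ℤ) - 1) * h0 ≤ ((b : ℤ) - 1) * ((A : ℤ) * ((b : ℤ) - 1) + 1) ∧
        (h1 : ℝ) + potential A b h0 ≤
          (b : ℝ) * (b - 1) / 2 + potential A b (((A : ℝ) - 1) * ((b : ℝ) - 1)) ∧
        (h1 : ℝ) ≤ bound A b

open Pool.Agent.K4H28.SP Pool.Agent.H51.SB

theorem gen_dim (s d : ℕ) (m : ℕ → ℕ) :
    Generally fun P : Fin s → Fin 2 → ℂ =>
      Module.finrank ℂ (system P d m) = gd (fun i : Fin s => m i) d := by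
  obtain ⟨F, hF, h⟩ := gd_spec (fun i : Fin s => m i) d
  refine ⟨F.map (algebraMap ℚ ℂ), fun h0 => hF ?_, fun P hP => ?_⟩
  · exact map_injective _ (algebraMap ℚ ℂ).injective (h0.trans (map_zero _).symm)
  · rw [eval_map] at hP
    exact h ℂ P hP

theorem Generally.mono {s : ℕ} {p r : (Fin s → Fin 2 → ℂ) → Prop} (h : Generally p)
    (hpr : ∀ P, p P → r P) : Generally r := by
  obtain ⟨F, hF, h1⟩ := h
  exact ⟨F, hF, fun P hP => hpr P (h1 P hP)⟩

theorem vdim_eq (s d : ℕ) (m : ℕ → ℕ) : vdimAddOne s d m =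
    ((d + 2).choose 2 : ℤ) - ((∑ i : Fin s, (m i + 1).choose 2 : ℕ) : ℤ) := by
  unfold vdimAddOne
  rw [Nat.cast_sum, Finset.sum_range]

theorem ge_vdim (s d : ℕ) (m : ℕ → ℕ) : vdimAddOne s d m ≤ gd (fun i : Fin s => m i) d := by
  have h := gd_ge (m := fun i : Fin s => m i) (d := d)
  rw [vdim_eq]
  omega

theorem special_gd {s d : ℕ} {m : ℕ → ℕ} (h : IsSpecial s d m) :
    1 ≤ gd (fun i : Fin s => m i) d ∧ vdimAddOne s d m < gd (fun i : Fin s => m i) d := by
  have h1 := ge_vdim s d m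
  have h2 : (gd (fun i : Fin s => m i) d : ℤ) ≠ max (vdimAddOne s d m) 0 := by
    intro h3
    exact h ((gen_dim s d m).mono fun P hP => by rw [hP, h3])
  constructor
  · by_contra hcon
    apply h2
    have h3 : gd (fun i : Fin s => m i) d = 0 := by omega
    have h4 : vdimAddOne s d m ≤ 0 := by omega
    rw [h3, max_eq_right h4]
    rfl
  · by_contra hcon
    apply h2
    have h3 : (gd (fun i : Fin s => m i) d : ℤ) = vdimAddOne s d m := by omega
    rw [h3, max_eq_left]
    rw [← h3]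
    exact Int.natCast_nonneg _

theorem pot_eq {A b : ℕ} (hb : 1 ≤ b) (x : ℝ) :
    pot ((b - 1 : ℕ) : ℝ) ((2 * A + (b - 1) : ℕ) : ℝ) x = potential A b x := by
  unfold pot potential
  push_cast [Nat.cast_sub hb]
  rfl

/-- The bounds follow from those for the generic dimension. -/
theorem bounds_of {s d : ℕ} {m : ℕ → ℕ} {A b : ℕ} (hbA : b ≤ A)
    (h : 1 ≤ gd (fun i : Fin s => m i) d → ∃ y, gd (fun i : Fin s => m i) d +
      ∑ i : Fin s, (m i + 1).choose 2 = (d + 2).choose 2 + y ∧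
        TB A b (gd (fun i : Fin s => m i) d) y) : Bounds s d m A b := by
  have key : ∀ h0 h1 : ℤ, h0 = gd (fun i : Fin s => m i) d → h1 = h0 - vdimAddOne s d m →
      1 ≤ h0 → h1 ≠ 0 →
        2 ≤ b ∧ h0 ≤ ((A : ℤ) - 1) * ((b : ℤ) - 1) ∧
        2 * h1 + ((b : ℤ) - 1) * h0 ≤ ((b : ℤ) - 1) * ((A : ℤ) * ((b : ℤ) - 1) + 1) ∧
        (h1 : ℝ) + potential A b h0 ≤
          (b : ℝ) * (b - 1) / 2 + potential A b (((A : ℝ) - 1) * ((b : ℝ) - 1)) ∧
        (h1 : ℝ) ≤ bound A b := by
    intro h0 h1 e0 e1 hpos hne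
    obtain ⟨y, hy, hTB⟩ := h (by omega)
    rw [vdim_eq] at e1
    have ey : h1 = (y : ℤ) := by omega
    have hy0 : y ≠ 0 := by
      intro h2
      exact hne (by rw [ey, h2]; rfl)
    have hcl := hTB.closed hbA hy0
    rcases hTB with h2 | ⟨h2, h3, h4, h5⟩
    · exact absurd h2 hy0
    rw [pot_eq (by omega), pot_eq (by omega)] at h5
    subst e0
    rw [ey]
    obtain ⟨c, rfl⟩ : ∃ c, b = c + 1 := ⟨b - 1, by omega⟩
    obtain ⟨B, rfl⟩ : ∃ B, A = B + 1 := ⟨A - 1, by omega⟩
    simp only [Nat.add_sub_cancel] at h3 h4 h5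
    have e3 : ((B + 1 : ℕ) : ℤ) - 1 = (B : ℤ) := by push_cast; ring
    have e4 : ((c + 1 : ℕ) : ℤ) - 1 = (c : ℤ) := by push_cast; ring
    have e5 : ((B + 1 : ℕ) : ℝ) - 1 = (B : ℝ) := by push_cast; ring
    have e6 : ((c + 1 : ℕ) : ℝ) - 1 = (c : ℝ) := by push_cast; ring
    refine ⟨h2, ?_, ?_, ?_, ?_⟩
    · rw [e3, e4]
      exact_mod_cast h3
    · rw [e4]
      exact_mod_cast h4
    · rw [e5, e6, Int.cast_natCast, Int.cast_natCast]
      push_cast at h5 ⊢
      exact h5
    · rw [Int.cast_natCast]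
      exact hcl
  refine ⟨fun hsp => ?_, (gen_dim s d m).mono fun P hP h0 h1 e0 e1 => ?_⟩
  · obtain ⟨h2, h3⟩ := special_gd hsp
    obtain ⟨h4, h5, -, -, h6⟩ := key _ _ rfl rfl (by omega) (by omega)
    refine ⟨h4, ?_, by omega⟩
    have h7 : (1 : ℝ) ≤ (gd (fun i : Fin s => m i) d : ℝ) := by exact_mod_cast h2
    push_cast at h6
    linarith
  · rw [hP] at e0
    exact key h0 h1 e0 e1

theorem three {m : ℕ → ℕ} {d : ℕ} (hm : Antitone m) (hd : m 0 + m 1 + m 2 ≤ d) :
    ∀ i j k : ℕ, i ≠ j → i ≠ k → j ≠ k → m i + m j + m k ≤ d := by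
  have key : ∀ i j k : ℕ, i < j → j < k → m i + m j + m k ≤ d := by
    intro i j k h1 h2
    have e0 := hm (Nat.zero_le i)
    have e1 := hm (show 1 ≤ j by omega)
    have e2 := hm (show 2 ≤ k by omega)
    omega
  intro i j k h1 h2 h4
  rcases Nat.lt_or_gt_of_ne h1 with a1 | a1 <;> rcases Nat.lt_or_gt_of_ne h2 with a2 | a2 <;>
    rcases Nat.lt_or_gt_of_ne h4 with a3 | a3
  · have := key i j k a1 a3
    omega
  · have := key i k j a2 a3
    omega
  · omega
  · have := key k i j a2 a1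
    omega
  · have := key j i k a1 a2
    omega
  · omega
  · have := key j k i a3 a2
    omega
  · have := key k j i a3 a1
    omega

/-- **Main result.** General points of the complex projective plane, multiplicities
`m 0 ≥ m 1 ≥ ⋯` (with `m i = 0` for `i ≥ s`), degree `d ≥ m 0 + m 1 + m 2`. The bounds hold with
`A = m 0` and `b = m r` for every `r` with `m 0 + ⋯ + m (r - 1) ≤ 3 d`, in particular for `r = 9`. -/
theorem result (s d : ℕ) (m : ℕ → ℕ) (hm : Antitone m) (_hs : ∀ i, s ≤ i → m i = 0)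
    (hd : m 0 + m 1 + m 2 ≤ d) :
    (∀ r, ∑ i ∈ Finset.range r, m i ≤ 3 * d → Bounds s d m (m 0) (m r)) ∧
      Bounds s d m (m 0) (m 9) := by
  classical
  have hrange : ∀ r, ∑ i ∈ Finset.range r, m i ≤ 3 * d → Bounds s d m (m 0) (m r) := by
    intro r hr
    have h3 := three hm hd
    have hred : Red3 d (fun i : Fin s => m i) := by
      refine ⟨fun i => ?_, fun i j hij => ?_, fun i j k hij hik hjk => ?_⟩
      · have e0 := hm (Nat.zero_le (i : ℕ))
        change m i ≤ d
        omega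
      · have h4 : (i : ℕ) ≠ (j : ℕ) := fun h => hij (Fin.ext h)
        obtain ⟨k, hk1, hk2⟩ : ∃ k : ℕ, (i : ℕ) ≠ k ∧ (j : ℕ) ≠ k :=
          ⟨(i : ℕ) + (j : ℕ) + 1, by omega, by omega⟩
        have := h3 i j k h4 hk1 hk2
        change m i + m j ≤ d
        omega
      · exact h3 i j k (fun h => hij (Fin.ext h)) (fun h => hik (Fin.ext h))
          (fun h => hjk (Fin.ext h))
    refine bounds_of (hm (Nat.zero_le r)) fun hne => ?_
    refine gd_trade_red (m := fun i : Fin s => m i) (d := d) hred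
      (T := Finset.univ.filter fun i : Fin s => (i : ℕ) < r) ?_
      (A := m 0) (b := m r) (fun j _ => hm (Nat.zero_le _)) (fun j hj => ?_)
      (hm (Nat.zero_le r)) hne
    · refine le_trans ?_ hr
      have e : ∑ i ∈ Finset.univ.filter (fun i : Fin s => (i : ℕ) < r), m i =
          ∑ x ∈ (Finset.univ.filter (fun i : Fin s => (i : ℕ) < r)).map Fin.valEmbedding, m x := by
        rw [Finset.sum_map]
        rfl
      rw [e]
      refine Finset.sum_le_sum_of_subset fun x hx => ?_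
      rw [Finset.mem_map] at hx
      obtain ⟨i, hi, rfl⟩ := hx
      exact Finset.mem_range.2 (Finset.mem_filter.1 hi).2
    · refine hm ?_
      by_contra hcon
      exact hj (Finset.mem_filter.2 ⟨Finset.mem_univ _, by omega⟩)
  refine ⟨hrange, hrange 9 ?_⟩
  simp only [Finset.sum_range_succ, Finset.sum_range_zero, zero_add]
  have e3 := hm (show 0 ≤ 3 by omega)
  have e4 := hm (show 1 ≤ 4 by omega)
  have e5 := hm (show 2 ≤ 5 by omega)
  have e6 := hm (show 0 ≤ 6 by omega)
  have e7 := hm (show 1 ≤ 7 by omega)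
  have e8 := hm (show 2 ≤ 8 by omega)
  omega

end Pool.Agent.Results.MP_d3128a_ag.TenthSuperabundance
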